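import Mathlib

/-!
Project BKC (helper274), job RAM: inertia moves the square roots of elements of odd valuation.
-/

set_option autoImplicit false
set_option linter.unusedSectionVars false

namespace Pool.Agent.Q95.BKC

open NumberField IsDedekindDomain
open scoped Pointwise

/-- the absolute Galois group -/
abbrev GK (K : Type) [Field K] : Type := Gal(AlgebraicClosure K/K)

/-- the ring of all algebraic integers -/
abbrev OB (K : Type) [Field K] : Type := 𝓞 (AlgebraicClosure K)

section
variable {K : Type} [Field K] [NumberField K]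

theorem coe_smul (σ : GK K) (x : OB K) : ((σ • x : OB K) : AlgebraicClosure K) = σ x := rfl

/-- an element of the closure fixed by everything is in `K` -/
theorem exists_of_fixed (w : AlgebraicClosure K) (h : ∀ g : GK K, g w = w) :
    ∃ k : K, algebraMap K (AlgebraicClosure K) k = w := by
  have h1 : w ∈ (⊥ : IntermediateField K (AlgebraicClosure K)) := by
    rw [InfiniteGalois.mem_bot_iff_fixed]
    exact h
  exact IntermediateField.mem_bot.1 h1

/-- an integral element of `K` with square multiple odd is in the prime -/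
theorem mem_of_odd (x : K) (v : HeightOneSpectrum (𝓞 K)) (Q : Ideal (OB K))
    (hodd : ∀ a : K, a ≠ 0 → v.valuation K (x * a ^ 2) ≠ 1) (hQ : Q.IsMaximal)
    (hQv : Q.comap (algebraMap (𝓞 K) (OB K)) = v.asIdeal) (u : OB K) (k : K)
    (hu : (u : AlgebraicClosure K) ^ 2 = algebraMap K (AlgebraicClosure K) (x * k ^ 2)) : u ∈ Q := by
  have hQp := hQ.isPrime
  by_cases hk : k = 0
  · have h0 : u = 0 := by
      apply RingOfIntegers.ext
      rw [hk] at hu
      have h1 : (u : AlgebraicClosure K) ^ 2 = 0 := by rw [hu]; simp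
      have h2 := pow_eq_zero_iff (two_ne_zero) |>.mp h1
      rw [h2]
      rfl
    rw [h0]
    exact Q.zero_mem
  · have hint : IsIntegral ℤ (x * k ^ 2) := by
      have h3 : IsIntegral ℤ (algebraMap K (AlgebraicClosure K) (x * k ^ 2)) := by
        rw [← hu]
        exact u.2.pow 2
      exact (isIntegral_algebraMap_iff (algebraMap K (AlgebraicClosure K)).injective).1 h3
    let r : 𝓞 K := ⟨x * k ^ 2, hint⟩
    have h4 : v.valuation K (r : K) < 1 :=
      lt_of_le_of_ne (v.valuation_le_one r) (hodd k hk)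
    rw [HeightOneSpectrum.valuation_lt_one_iff_mem, ← hQv, Ideal.mem_comap] at h4
    have h5 : u ^ 2 = algebraMap (𝓞 K) (OB K) r := by
      apply RingOfIntegers.ext
      rw [RingOfIntegers.coe_eq_algebraMap, map_pow]
      exact hu
    rw [← h5] at h4
    exact hQp.mem_of_pow_mem _ h4

theorem key (x : K) (v : HeightOneSpectrum (𝓞 K)) (Q : Ideal (OB K))
    (hodd : ∀ a : K, a ≠ 0 → v.valuation K (x * a ^ 2) ≠ 1) (hQ : Q.IsMaximal)
    (hQv : Q.comap (algebraMap (𝓞 K) (OB K)) = v.asIdeal) (y : AlgebraicClosure K) (hy0 : y ≠ 0)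
    (hy : y ^ 2 = algebraMap K (AlgebraicClosure K) x) (τ : GK K) (hτ : τ y = -y) (z : OB K)
    (hz : ∀ n : GK K, n y = y → n • z = z) : τ • z - z ∈ Q := by
  have hpm : ∀ g : GK K, g y = y ∨ g y = -y := by
    intro g
    have h1 : g y ^ 2 = y ^ 2 := by rw [← map_pow, hy, AlgEquiv.commutes]
    exact sq_eq_sq_iff_eq_or_eq_neg.mp h1
  have hz' : ∀ n : GK K, n y = y → n (z : AlgebraicClosure K) = z := fun n hn =>
    congrArg (fun t : OB K => (t : AlgebraicClosure K)) (hz n hn)
  have hτi : τ⁻¹ y = -y := by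
    have h1 : τ⁻¹ (τ y) = y := by
      rw [← AlgEquiv.mul_apply, inv_mul_cancel]; rfl
    rw [hτ, map_neg] at h1
    exact neg_eq_iff_eq_neg.mp h1
  have hfix : ∀ g : GK K, g ((τ (z : AlgebraicClosure K) - z) / y)
      = (τ (z : AlgebraicClosure K) - z) / y := by
    intro g
    rcases hpm g with hg | hg
    · have h1 : (τ⁻¹ * g * τ) y = y := by
        rw [AlgEquiv.mul_apply, AlgEquiv.mul_apply, hτ, map_neg, map_neg, hg, hτi, neg_neg]
      have h2 := hz' _ h1
      have h3 : g (τ (z : AlgebraicClosure K)) = τ z := by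
        have h4 := congrArg τ h2
        rw [← AlgEquiv.mul_apply] at h4
        have e : τ * (τ⁻¹ * g * τ) = g * τ := by group
        rw [e] at h4
        exact h4
      rw [map_div₀, map_sub, h3, hz' g hg, hg]
    · have h1 : (g * τ) y = y := by
        rw [AlgEquiv.mul_apply, hτ, map_neg, hg, neg_neg]
      have h2 : g (τ (z : AlgebraicClosure K)) = z := hz' _ h1
      have h3 : (τ⁻¹ * g) y = y := by
        rw [AlgEquiv.mul_apply, hg, map_neg, hτi, neg_neg]
      have h4 : g (z : AlgebraicClosure K) = τ z := by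
        have h5 := congrArg τ (hz' _ h3)
        rw [← AlgEquiv.mul_apply] at h5
        have e : τ * (τ⁻¹ * g) = g := by group
        rw [e] at h5
        exact h5
      rw [map_div₀, map_sub, h2, h4, hg, div_neg, ← neg_div, neg_sub]
  obtain ⟨k, hk⟩ := exists_of_fixed _ hfix
  apply mem_of_odd x v Q hodd hQ hQv (τ • z - z) k
  have h6 : ((τ • z - z : OB K) : AlgebraicClosure K)
      = algebraMap K (AlgebraicClosure K) k * y := by
    rw [hk, div_mul_cancel₀ _ hy0]
    rfl
  rw [h6, mul_pow, hy, map_mul, map_pow]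
  ring

theorem ram_aux (x : K) (v : HeightOneSpectrum (𝓞 K)) (Q : Ideal (OB K)) (hx : x ≠ 0)
    (hodd : ∀ a : K, a ≠ 0 → v.valuation K (x * a ^ 2) ≠ 1) (hQ : Q.IsMaximal)
    (hQv : Q.comap (algebraMap (𝓞 K) (OB K)) = v.asIdeal) :
    ∃ σ : GK K, (∀ z : OB K, σ • z - z ∈ Q) ∧
      ∀ y : AlgebraicClosure K, y ^ 2 = algebraMap K (AlgebraicClosure K) x → σ y = -y := by
  classical
  have hQp := hQ.isPrime
  obtain ⟨y, hy⟩ := IsAlgClosed.exists_pow_nat_eq (algebraMap K (AlgebraicClosure K) x) two_pos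
  have hy0 : y ≠ 0 := by
    rintro rfl
    rw [zero_pow two_ne_zero, eq_comm, map_eq_zero] at hy
    exact hx hy
  have hpm : ∀ g : GK K, g y = y ∨ g y = -y := by
    intro g
    have h1 : g y ^ 2 = y ^ 2 := by rw [← map_pow, hy, AlgEquiv.commutes]
    exact sq_eq_sq_iff_eq_or_eq_neg.mp h1
  have hτ : ∃ τ : GK K, τ y = -y := by
    by_contra hcon
    push Not at hcon
    obtain ⟨k, hk⟩ := exists_of_fixed y (fun g => (hpm g).resolve_right (hcon g))
    have h1 : k ^ 2 = x := by
      apply (algebraMap K (AlgebraicClosure K)).injective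
      rw [map_pow, hk, hy]
    have hk0 : k ≠ 0 := by
      rintro rfl
      apply hx
      rw [← h1]
      ring
    apply hodd k⁻¹ (inv_ne_zero hk0)
    rw [← h1, ← mul_pow, mul_inv_cancel₀ hk0, one_pow, map_one]
  obtain ⟨τ, hτ⟩ := hτ
  have hτi : τ⁻¹ y = -y := by
    rcases hpm τ⁻¹ with h | h
    · exfalso
      have h2 := congrArg τ h
      rw [← AlgEquiv.mul_apply, mul_inv_cancel, hτ] at h2
      have h3 : y = -y := h2
      apply hy0
      exact self_eq_neg.mp h3
    · exact h
  let N : Subgroup (GK K) := MulAction.stabilizer (GK K) y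
  have hN : ∀ n : GK K, n ∈ N ↔ n y = y := fun n => Iff.rfl
  let A := FixedPoints.subalgebra ℤ (OB K) N
  have hA : ∀ z : OB K, z ∈ A ↔ ∀ n : GK K, n y = y → n • z = z := fun z =>
    ⟨fun h n hn => h ⟨n, hn⟩, fun h n => h n.1 n.2⟩
  have hkey := key x v Q hodd hQ hQv y hy0 hy
  have hNo : IsOpen (N : Set (GK K)) := stabilizer_isOpen_of_isIntegral (K := K) y
  have hNc : IsClosed (N : Set (GK K)) := Subgroup.isClosed_of_isOpen N hNo
  have : CompactSpace N := isCompact_iff_compactSpace.mp hNc.isCompact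
  let _ : TopologicalSpace (OB K) := ⊥
  have : DiscreteTopology (OB K) := ⟨rfl⟩
  have : ContinuousSMul (GK K) (OB K) := by
    rw [continuousSMul_iff_stabilizer_isOpen]
    intro z
    have h1 := stabilizer_isOpen_of_isIntegral (K := K) (z : AlgebraicClosure K)
    have h2 : ((MulAction.stabilizer (GK K) z : Subgroup (GK K)) : Set (GK K))
        = (MulAction.stabilizer (GK K) (z : AlgebraicClosure K) : Subgroup (GK K)) := by
      ext g
      simp only [SetLike.mem_coe]
      rw [MulAction.mem_stabilizer_iff, MulAction.mem_stabilizer_iff]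
      exact ⟨fun h => congrArg (fun t : OB K => (t : AlgebraicClosure K)) h,
        fun h => RingOfIntegers.ext h⟩
    rw [h2]
    exact h1
  have : ContinuousSMul N (OB K) := inferInstance
  have : SMulCommClass N A (OB K) := by
    refine ⟨fun n a b => ?_⟩
    rw [Algebra.smul_def, Algebra.smul_def, smul_mul']
    congr 1
    exact a.2 n
  have : Algebra.IsInvariant A (OB K) N := ⟨fun b hb => ⟨⟨b, hb⟩, rfl⟩⟩
  have hpr : (τ • Q).IsPrime := inferInstance
  have hunder : (τ • Q).under A = Q.under A := by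
    ext z
    rw [Ideal.mem_under, Ideal.mem_under, Ideal.mem_pointwise_smul_iff_inv_smul_mem]
    have h1 := hkey τ⁻¹ hτi (z : OB K) ((hA _).mp z.2)
    constructor
    · intro h
      have := Q.sub_mem h h1
      simpa using this
    · intro h
      have := Q.add_mem h1 h
      simpa using this
  obtain ⟨ρ, hρ⟩ := Algebra.IsInvariant.exists_smul_of_under_eq_of_profinite (A := A)
    (G := N) (τ • Q) Q hunder
  -- the element of the decomposition group
  let θ : GK K := ρ * τ
  have hθy : θ y = -y := by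
    show (ρ : GK K) (τ y) = -y
    rw [hτ, map_neg]
    exact congrArg (fun t => -t) ρ.2
  have hθQ : θ • Q = Q := by
    conv_rhs => rw [hρ]
    exact mul_smul (ρ : GK K) τ Q
  have hmem : ∀ z : OB K, θ • z ∈ Q ↔ z ∈ Q := by
    intro z
    conv_lhs => rw [← hθQ]
    exact Ideal.smul_mem_pointwise_smul_iff
  let P : Ideal A := Q.under A
  have : Q.LiesOver P := ⟨rfl⟩
  have hmap : Q = Ideal.map (↑(MulSemiringAction.toRingEquiv (GK K) (OB K) θ) : OB K →+* OB K) Q := by
    apply le_antisymm
    · intro z h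
      have h1 : θ⁻¹ • z ∈ Q := by
        rw [← hmem, smul_inv_smul]
        exact h
      have h2 := Ideal.mem_map_of_mem
        (↑(MulSemiringAction.toRingEquiv (GK K) (OB K) θ) : OB K →+* OB K) h1
      have e : (↑(MulSemiringAction.toRingEquiv (GK K) (OB K) θ) : OB K →+* OB K) (θ⁻¹ • z) = z :=
        smul_inv_smul θ z
      rwa [e] at h2
    · rw [Ideal.map_le_iff_le_comap]
      intro z h
      exact (hmem z).mpr h
  let f₀ : (OB K ⧸ Q) ≃+* (OB K ⧸ Q) :=
    Ideal.quotientEquiv Q Q (MulSemiringAction.toRingEquiv (GK K) (OB K) θ) hmap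
  have hf₀ : ∀ z : OB K, f₀ (Ideal.Quotient.mk Q z) = Ideal.Quotient.mk Q (θ • z) := fun z => rfl
  let f : (OB K ⧸ Q) ≃ₐ[A ⧸ P] (OB K ⧸ Q) := AlgEquiv.ofRingEquiv (f := f₀) (by
    intro a
    obtain ⟨a, rfl⟩ := Ideal.Quotient.mk_surjective a
    show f₀ (Ideal.Quotient.mk Q (a : OB K)) = Ideal.Quotient.mk Q (a : OB K)
    rw [hf₀, Ideal.Quotient.mk_eq_mk_iff_sub_mem]
    exact hkey θ hθy (a : OB K) ((hA _).mp a.2))
  obtain ⟨g, hg⟩ := Ideal.Quotient.stabilizerHom_surjective_of_profinite (G := N) P Q f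
  have hg2 : ∀ z : OB K, ((g : N) : GK K) • z - θ • z ∈ Q := by
    intro z
    have h1 := DFunLike.congr_fun hg (Ideal.Quotient.mk Q z)
    rw [Ideal.Quotient.stabilizerHom_apply] at h1
    rw [← Ideal.Quotient.mk_eq_mk_iff_sub_mem]
    exact h1
  have hgQ : ((g : N) : GK K) • Q = Q := g.2
  have hgy : ((g : N) : GK K) y = y := (g : N).2
  have hgi : (((g : N) : GK K)⁻¹ : GK K) y = y := by
    have h2 : (((g : N) : GK K)⁻¹ : GK K) (((g : N) : GK K) y) = (((g : N) : GK K)⁻¹ : GK K) y := by
      rw [hgy]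
    rw [← AlgEquiv.mul_apply, inv_mul_cancel] at h2
    exact h2.symm
  have hσy : (((g : N) : GK K)⁻¹ * θ) y = -y := by
    rw [AlgEquiv.mul_apply, hθy, map_neg, hgi]
  refine ⟨((g : N) : GK K)⁻¹ * θ, fun z => ?_, fun y' hy' => ?_⟩
  · have h1 := hg2 z
    have h2 : ((g : N) : GK K) • ((((g : N) : GK K)⁻¹ * θ) • z - z)
        = -(((g : N) : GK K) • z - θ • z) := by
      rw [smul_sub, smul_smul, mul_inv_cancel_left]
      ring
    have h3 : ((g : N) : GK K) • ((((g : N) : GK K)⁻¹ * θ) • z - z) ∈ ((g : N) : GK K) • Q := by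
      rw [hgQ, h2]
      exact Q.neg_mem h1
    exact Ideal.smul_mem_pointwise_smul_iff.mp h3
  · have h1 : y' ^ 2 = y ^ 2 := by rw [hy, hy']
    rcases sq_eq_sq_iff_eq_or_eq_neg.mp h1 with rfl | rfl
    · exact hσy
    · rw [map_neg, hσy]

end

end Pool.Agent.Q95.BKC
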