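import Pool.Agent.Q274.BKC.Stm2
import Pool.Agent.Q95.BKC.RamA

/-!
Project BKC (helper274), job RAM.
-/

set_option autoImplicit false

namespace Pool.Agent.Q95.BKC

theorem t_RAM : Pool.Agent.Q274.BKC.S_RAM := by
  intro K _ _ x v Q hx hodd hQ hQv
  obtain ⟨σ, h1, h2⟩ := ram_aux x v Q hx hodd hQ hQv
  exact ⟨σ, h1, h2⟩

end Pool.Agent.Q95.BKC
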