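import Pool.Agent.Y698.Km
import Pool.Agent.Q95.BKC.RamA

/-!
Project BKC (helper274), job RED: 2-adic numbers and Kummer theory.
-/

set_option autoImplicit false
set_option linter.unusedSectionVars false

namespace Pool.Agent.Q95.BKC

open NumberField IsDedekindDomain

/-! ### 2-adic numbers -/

lemma half_of_lt_one {u : ℚ_[2]} (h : ‖u‖ < 1) : ‖u‖ ≤ 1 / 2 := by
  have h1 := (Padic.norm_le_pow_iff_norm_lt_pow_add_one u (-1)).mpr (by simpa using h)
  have e : ((2 : ℕ) : ℝ) ^ (-1 : ℤ) = 1 / 2 := by norm_num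
  rwa [e] at h1

lemma quarter_of_lt_half {u : ℚ_[2]} (h : ‖u‖ < 1 / 2) : ‖u‖ ≤ 1 / 4 := by
  have h1 := (Padic.norm_le_pow_iff_norm_lt_pow_add_one u (-2)).mpr (by
    have e : ((2 : ℕ) : ℝ) ^ (-2 + 1 : ℤ) = 1 / 2 := by norm_num
    rw [e]
    exact h)
  have e : ((2 : ℕ) : ℝ) ^ (-2 : ℤ) = 1 / 4 := by norm_num
  rwa [e] at h1

lemma one_of_lt_two {u : ℚ_[2]} (h : ‖u‖ < 2) : ‖u‖ ≤ 1 := by
  have h1 := (Padic.norm_le_pow_iff_norm_lt_pow_add_one u 0).mpr (by
    have e : ((2 : ℕ) : ℝ) ^ (0 + 1 : ℤ) = 2 := by norm_num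
    rw [e]
    exact h)
  have e : ((2 : ℕ) : ℝ) ^ (0 : ℤ) = 1 := by norm_num
  rwa [e] at h1

lemma norm_two : ‖(2 : ℚ_[2])‖ = 1 / 2 := by
  have := Padic.norm_p (p := 2)
  rw [show ((2 : ℕ) : ℚ_[2]) = 2 by norm_num] at this
  rw [this]
  norm_num

lemma sub_one_of_norm_one {u : ℚ_[2]} (h : ‖u‖ = 1) : ‖u - 1‖ ≤ 1 / 2 := by
  apply half_of_lt_one
  let x : ℤ_[2] := ⟨u, h.le⟩
  have h1 := PadicInt.sub_zmodRepr_mem x
  have h2 := PadicInt.zmodRepr_lt_p x
  rw [IsLocalRing.mem_maximalIdeal, PadicInt.mem_nonunits] at h1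
  interval_cases hr : x.zmodRepr
  · exfalso
    rw [Nat.cast_zero, sub_zero] at h1
    have h3 : ‖x‖ = 1 := h
    rw [h3] at h1
    exact lt_irrefl _ h1
  · rw [Nat.cast_one] at h1
    exact h1

lemma add_lt_of_norm_one {u w : ℚ_[2]} (hu : ‖u‖ = 1) (hw : ‖w‖ = 1) : ‖u + w‖ < 1 := by
  have e : u + w = (u - 1) + ((w - 1) + 2) := by ring
  rw [e]
  refine lt_of_le_of_lt (Padic.nonarchimedean _ _) (max_lt ?_ ?_)
  · exact lt_of_le_of_lt (sub_one_of_norm_one hu) (by norm_num)
  · refine lt_of_le_of_lt (Padic.nonarchimedean _ _) (max_lt ?_ ?_)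
    · exact lt_of_le_of_lt (sub_one_of_norm_one hw) (by norm_num)
    · rw [norm_two]
      norm_num

lemma sq_sub_one_le {w : ℚ_[2]} (h : ‖w‖ = 1) : ‖w ^ 2 - 1‖ ≤ 1 / 8 := by
  have h1 := sub_one_of_norm_one h
  set m := (w - 1) / 2 with hm
  have hw : w = 1 + 2 * m := by rw [hm]; ring
  have hm1 : ‖m‖ ≤ 1 := by
    rw [hm, norm_div, norm_two]
    rw [div_le_iff₀ (by norm_num)]
    linarith
  have h2 : ‖m * (m + 1)‖ ≤ 1 / 2 := by
    rw [norm_mul]
    have h3 : ‖m + 1‖ ≤ 1 := (Padic.nonarchimedean _ _).trans (max_le hm1 (by simp))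
    rcases hm1.lt_or_eq with h4 | h4
    · have h5 := half_of_lt_one h4
      nlinarith [norm_nonneg m, norm_nonneg (m + 1)]
    · have h5 := sub_one_of_norm_one h4
      have h6 : ‖m + 1‖ ≤ 1 / 2 := by
        have e : m + 1 = (m - 1) + 2 := by ring
        rw [e]
        exact (Padic.nonarchimedean _ _).trans (max_le h5 norm_two.le)
      nlinarith [norm_nonneg m, norm_nonneg (m + 1)]
  have e : w ^ 2 - 1 = 2 * 2 * (m * (m + 1)) := by rw [hw]; ring
  rw [e, norm_mul, norm_mul, norm_two]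
  linarith

section
variable {K : Type} [Field K] [NumberField K]

/-- Kummer theory for the reduction of an integral cocycle -/
lemma kummer (val : GK K → ℚ_[2]) (hval : ∀ σ, ‖val σ‖ = 1) (c : GK K → ℚ_[2]) (hc : Continuous c)
    (coc : ∀ σ τ, c (σ * τ) = c σ + val σ * c τ) (hle : ∀ σ, ‖c σ‖ ≤ 1) :
    ∃ x : K, x ≠ 0 ∧ ∀ σ : GK K, (‖c σ‖ < 1 ↔ ∀ y : AlgebraicClosure K,
      y ^ 2 = algebraMap K (AlgebraicClosure K) x → σ y = y) := by
  classical
  have hc1 : c 1 = 0 := by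
    have h1 := coc 1 1
    rw [mul_one] at h1
    have h2 : val 1 * c 1 = 0 := by linear_combination -h1
    rcases mul_eq_zero.mp h2 with h | h
    · exfalso
      have := hval 1
      rw [h, norm_zero] at this
      exact zero_ne_one this
    · exact h
  have hopen : {σ : GK K | ‖c σ‖ < 1} ∈ nhds (1 : GK K) := by
    apply (isOpen_lt (continuous_norm.comp hc) continuous_const).mem_nhds
    show ‖c 1‖ < 1
    rw [hc1, norm_zero]
    exact zero_lt_one
  obtain ⟨L, hL, hLs⟩ := (krullTopology_mem_nhds_one_iff K (AlgebraicClosure K) _).mp hopen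
  obtain ⟨S, hS⟩ : (⊤ : Submodule K L).FG := Module.Finite.fg_top
  obtain ⟨x, s, hx, hs, hs2⟩ := Pool.Agent.Y698.kumF (F := K) (C := AlgebraicClosure K)
    (fun σ => ‖c σ‖ < 1) (S.image (fun t : L => (t : AlgebraicClosure K))) (fun τ hτ => by
      apply hLs
      rw [SetLike.mem_coe, IntermediateField.mem_fixingSubgroup_iff]
      intro z hz
      have hz2 : (⟨z, hz⟩ : L) ∈ Submodule.span K (S : Set L) := by
        rw [hS]
        exact Submodule.mem_top
      have key : ∀ w : L, w ∈ Submodule.span K (S : Set L) →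
          τ (w : AlgebraicClosure K) = w := by
        intro w hw
        induction hw using Submodule.span_induction with
        | mem w hw => exact hτ _ (Finset.mem_image_of_mem _ hw)
        | zero => exact map_zero τ
        | add a b _ _ ha hb =>
          show τ ((a : AlgebraicClosure K) + b) = a + b
          rw [map_add, ha, hb]
        | smul r a _ ha =>
          show τ (r • (a : AlgebraicClosure K)) = r • (a : AlgebraicClosure K)
          rw [Algebra.smul_def, map_mul, AlgEquiv.commutes, ha]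
      exact key _ hz2) (fun σ τ => by
      rw [coc]
      have h1 : ‖val σ * c τ‖ = ‖c τ‖ := by rw [norm_mul, hval, one_mul]
      rcases (hle σ).lt_or_eq with h2 | h2 <;> rcases (hle τ).lt_or_eq with h3 | h3
      · have h4 : ‖c σ + val σ * c τ‖ < 1 :=
          lt_of_le_of_lt (Padic.nonarchimedean _ _) (max_lt h2 (by rw [h1]; exact h3))
        tauto
      · have h4 : ‖c σ + val σ * c τ‖ = 1 := by
          rw [Padic.add_eq_max_of_ne (by rw [h1, h3]; exact h2.ne), h1, h3]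
          exact max_eq_right h2.le
        have h5 : ¬ ‖c σ + val σ * c τ‖ < 1 := by rw [h4]; exact lt_irrefl _
        have h6 : ¬ ‖c τ‖ < 1 := by rw [h3]; exact lt_irrefl _
        tauto
      · have h4 : ‖c σ + val σ * c τ‖ = 1 := by
          rw [Padic.add_eq_max_of_ne (by rw [h1, h2]; exact h3.ne'), h1, h2]
          exact max_eq_left h3.le
        have h5 : ¬ ‖c σ + val σ * c τ‖ < 1 := by rw [h4]; exact lt_irrefl _
        have h6 : ¬ ‖c σ‖ < 1 := by rw [h2]; exact lt_irrefl _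
        tauto
      · have h4 : ‖c σ + val σ * c τ‖ < 1 := add_lt_of_norm_one h2 (by rw [h1]; exact h3)
        have h5 : ¬ ‖c τ‖ < 1 := by rw [h3]; exact lt_irrefl _
        have h6 : ¬ ‖c σ‖ < 1 := by rw [h2]; exact lt_irrefl _
        tauto)
  refine ⟨x, hx, fun σ => ?_⟩
  have h1 : ‖c σ‖ < 1 ↔ σ s = s := (hs2 σ).symm
  rw [h1]
  constructor
  · intro h y hy
    have h2 : y ^ 2 = s ^ 2 := by rw [hy, hs]
    rcases sq_eq_sq_iff_eq_or_eq_neg.mp h2 with rfl | rfl
    · exact h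
    · rw [map_neg, h]
  · intro h
    exact h s hs

end

end Pool.Agent.Q95.BKC
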