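import Pool.Agent.Q95.BKC.RedA

/-!
Project BKC (helper274), job RED: the dichotomy at a decomposition group, and a 2-adic computation.
-/

set_option autoImplicit false
set_option linter.unusedSectionVars false

namespace Pool.Agent.Q95.BKC

open NumberField IsDedekindDomain

section
variable {K : Type} [Field K] [NumberField K]

lemma fix_iff {x : K} {s : AlgebraicClosure K} (hs : s ^ 2 = algebraMap K (AlgebraicClosure K) x)
    (σ : GK K) :
    (∀ y : AlgebraicClosure K, y ^ 2 = algebraMap K (AlgebraicClosure K) x → σ y = y) ↔ σ s = s := by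
  constructor
  · intro h
    exact h s hs
  · intro h y hy
    have h2 : y ^ 2 = s ^ 2 := by rw [hy, hs]
    rcases sq_eq_sq_iff_eq_or_eq_neg.mp h2 with rfl | rfl
    · exact h
    · rw [map_neg, h]

lemma sqrt_dich {x : K} {s : AlgebraicClosure K} (hs : s ^ 2 = algebraMap K (AlgebraicClosure K) x)
    (σ : GK K) : σ s = s ∨ σ s = -s := by
  have h1 : σ s ^ 2 = s ^ 2 := by rw [← map_pow, hs, AlgEquiv.commutes]
  exact sq_eq_sq_iff_eq_or_eq_neg.mp h1

/-- the dichotomy -/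
lemma dich {val : GK K → ℚ_[2]} (hval : ∀ σ, ‖val σ‖ = 1) {c : GK K → ℚ_[2]}
    (hle : ∀ σ, ‖c σ‖ ≤ 1) {x d : K}
    (hxc : ∀ σ : GK K, (‖c σ‖ < 1 ↔ ∀ y : AlgebraicClosure K,
      y ^ 2 = algebraMap K (AlgebraicClosure K) x → σ y = y))
    (hdv : ∀ y : AlgebraicClosure K, y ^ 2 = algebraMap K (AlgebraicClosure K) d →
      ∀ σ : GK K, (σ y = y ↔ ‖val σ - 1‖ ≤ 1 / 4))
    {H : Set (GK K)} {y₀ : ℚ_[2]} (hy₀ : ∀ σ ∈ H, c σ = (val σ - 1) * y₀) {τ : GK K} (hτH : τ ∈ H)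
    (hτ : ¬ ‖val τ - 1‖ ≤ 1 / 4) :
    (∀ y : AlgebraicClosure K, y ^ 2 = algebraMap K (AlgebraicClosure K) x → ∀ σ ∈ H, σ y = y) ∨
    (∀ y : AlgebraicClosure K, y ^ 2 = algebraMap K (AlgebraicClosure K) (x * d) →
      ∀ σ ∈ H, σ y = y) := by
  have h1 : ‖val τ - 1‖ = 1 / 2 := by
    apply le_antisymm (sub_one_of_norm_one (hval τ))
    by_contra h
    exact hτ (quarter_of_lt_half (not_le.mp h))
  have h2 : ‖y₀‖ ≤ 2 := by
    have h3 := hle τ
    rw [hy₀ τ hτH, norm_mul, h1] at h3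
    linarith
  rcases h2.lt_or_eq with h3 | h3
  · left
    intro y hy σ hσ
    have h4 := one_of_lt_two h3
    have h5 := sub_one_of_norm_one (hval σ)
    apply (hxc σ).mp _ y hy
    rw [hy₀ σ hσ, norm_mul]
    nlinarith [norm_nonneg y₀, norm_nonneg (val σ - 1)]
  · right
    intro y hy σ hσ
    obtain ⟨a, ha⟩ := IsAlgClosed.exists_pow_nat_eq (algebraMap K (AlgebraicClosure K) x) two_pos
    obtain ⟨b, hb⟩ := IsAlgClosed.exists_pow_nat_eq (algebraMap K (AlgebraicClosure K) d) two_pos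
    have hab : (a * b) ^ 2 = algebraMap K (AlgebraicClosure K) (x * d) := by
      rw [mul_pow, ha, hb, map_mul]
    have h4 : σ a = a ↔ σ b = b := by
      rw [← fix_iff ha, ← hxc, hdv b hb, hy₀ σ hσ, norm_mul, h3]
      constructor
      · intro h
        apply quarter_of_lt_half
        linarith
      · intro h
        linarith
    apply (fix_iff hab σ).mpr _ y hy
    rw [map_mul]
    rcases sqrt_dich ha σ with h5 | h5
    · rw [h5, h4.mp h5]
    · rcases sqrt_dich hb σ with h6 | h6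
      · rw [h4.mpr h6, h6]
      · rw [h5, h6, neg_mul_neg]

/-- from the inertia group to the decomposition group -/
lemma ine_to_dec {val : GK K → ℚ_[2]} (hmul : ∀ σ τ, val (σ * τ) = val σ * val τ)
    (hval : ∀ σ, ‖val σ‖ = 1) {c : GK K → ℚ_[2]}
    (coc : ∀ σ τ, c (σ * τ) = c σ + val σ * c τ) {Q : Ideal (OB K)} {y₀ : ℚ_[2]}
    (hy₀ : ∀ σ : GK K, (∀ z : OB K, σ • z - z ∈ Q) → c σ = (val σ - 1) * y₀) {τ : GK K}
    (hτQ : ∀ z : OB K, τ • z - z ∈ Q) (hτ : val τ ≠ 1) (σ : GK K)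
    (hσ : ∀ z : OB K, σ • z ∈ Q ↔ z ∈ Q) : c σ = (val σ - 1) * y₀ := by
  have h1 : ∀ z : OB K, (σ⁻¹ * τ * σ) • z - z ∈ Q := by
    intro z
    rw [← hσ, smul_sub, smul_smul]
    have e : σ * (σ⁻¹ * τ * σ) = τ * σ := by group
    rw [e, mul_smul]
    exact hτQ (σ • z)
  have h2 := hy₀ _ h1
  have h3 := coc σ (σ⁻¹ * τ * σ)
  have e : σ * (σ⁻¹ * τ * σ) = τ * σ := by group
  rw [e, coc τ σ, h2, hy₀ τ hτQ] at h3
  have hσ0 : val σ ≠ 0 := by
    intro h
    have := hval σ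
    rw [h, norm_zero] at this
    exact zero_ne_one this
  have h4 : val (σ⁻¹ * τ * σ) = val τ := by
    have h5 : val (σ * (σ⁻¹ * τ * σ)) = val σ * val (σ⁻¹ * τ * σ) := hmul _ _
    rw [e, hmul] at h5
    have h6 : val σ * val (σ⁻¹ * τ * σ) = val σ * val τ := by rw [← h5]; ring
    exact mul_left_cancel₀ hσ0 h6
  rw [h4] at h3
  have h7 : (val τ - 1) * c σ = (val τ - 1) * ((val σ - 1) * y₀) := by
    linear_combination h3
  exact mul_left_cancel₀ (sub_ne_zero.mpr hτ) h7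

end

/-! ### The 2-adic computation -/

lemma norm_nat_le (n : ℕ) : ‖(n : ℚ_[2])‖ ≤ 1 := by
  have := Padic.norm_int_le_one (p := 2) n
  simpa using this

lemma norm_int_le (n : ℤ) : ‖(n : ℚ_[2])‖ ≤ 1 := Padic.norm_int_le_one n

lemma norm_add_le_one {a b : ℚ_[2]} (ha : ‖a‖ ≤ 1) (hb : ‖b‖ ≤ 1) : ‖a + b‖ ≤ 1 :=
  (Padic.nonarchimedean _ _).trans (max_le ha hb)

lemma norm_sub_le_one {a b : ℚ_[2]} (ha : ‖a‖ ≤ 1) (hb : ‖b‖ ≤ 1) : ‖a - b‖ ≤ 1 := by
  rw [sub_eq_add_neg]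
  exact norm_add_le_one ha (by rwa [norm_neg])

lemma norm_mul_le_one {a b : ℚ_[2]} (ha : ‖a‖ ≤ 1) (hb : ‖b‖ ≤ 1) : ‖a * b‖ ≤ 1 := by
  rw [norm_mul]
  exact mul_le_one₀ ha (norm_nonneg _) hb

lemma core2 {q D : ℕ} (hD : D % 4 = 1) (hc : (16 : ℤ) ∣ 2 * D + 5 - q) {t w : ℚ_[2]}
    (ht : t ^ 2 = -(q : ℚ_[2])) (hn : ‖1 / 2 - 1 / 2 * t‖ < 1) (hw : w ^ 2 = D * t) : False := by
  obtain ⟨k, hk⟩ := hc
  obtain ⟨d, hd⟩ : ∃ d : ℕ, D = 4 * d + 1 := ⟨D / 4, by omega⟩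
  have hk' : (q : ℚ_[2]) = 2 * D + 5 - 16 * k := by
    have h1 : ((2 * D + 5 - q : ℤ) : ℚ_[2]) = ((16 * k : ℤ) : ℚ_[2]) := by rw [hk]
    push_cast at h1
    linear_combination -h1
  have hd' : (D : ℚ_[2]) = 4 * d + 1 := by rw [hd]; push_cast; ring
  set m : ℚ_[2] := (t - 1) / 4 with hm
  have htm : t = 1 + 4 * m := by rw [hm]; ring
  have hm1 : ‖m‖ ≤ 1 := by
    have h1 := half_of_lt_one hn
    have e : 1 / 2 - 1 / 2 * t = -(2 * m) := by rw [htm]; ring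
    rw [e, norm_neg, norm_mul, norm_two] at h1
    linarith
  have h8 : 8 * m = 16 * k - 16 * m ^ 2 - 8 * d - 8 := by
    rw [htm, hk', hd'] at ht
    linear_combination ht
  set e : ℚ_[2] := k - m ^ 2 + 2 * d * m with he
  have he1 : ‖e‖ ≤ 1 := by
    rw [he, pow_two]
    refine norm_add_le_one (norm_sub_le_one (norm_int_le k) (norm_mul_le_one hm1 hm1)) ?_
    refine norm_mul_le_one (norm_mul_le_one ?_ (norm_nat_le d)) hm1
    rw [norm_two]
    norm_num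
  have hDt : (D : ℚ_[2]) * t - 1 = 2 * 2 * (2 * e - 1) := by
    rw [he, hd', htm]
    linear_combination (1 / 2 : ℚ_[2]) * h8
  have h2e : ‖2 * e - 1‖ = 1 := by
    have h1 : ‖2 * e‖ ≤ 1 / 2 := by
      rw [norm_mul, norm_two]
      linarith
    rw [sub_eq_add_neg, Padic.add_eq_max_of_ne]
    · rw [norm_neg, norm_one]
      exact max_eq_right (by linarith)
    · rw [norm_neg, norm_one]
      intro h
      rw [h] at h1
      norm_num at h1
  have hDt2 : ‖(D : ℚ_[2]) * t - 1‖ = 1 / 4 := by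
    rw [hDt, norm_mul, norm_mul, norm_two, h2e]
    norm_num
  have hDt3 : ‖(D : ℚ_[2]) * t‖ = 1 := by
    have e1 : (D : ℚ_[2]) * t = (D * t - 1) + 1 := by ring
    rw [e1, Padic.add_eq_max_of_ne]
    · rw [hDt2, norm_one]
      exact max_eq_right (by norm_num)
    · rw [hDt2, norm_one]
      norm_num
  have hw1 : ‖w‖ = 1 := by
    rw [← hw, norm_pow] at hDt3
    exact (pow_eq_one_iff_of_nonneg (norm_nonneg w) two_ne_zero).mp hDt3
  have h9 := sq_sub_one_le hw1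
  rw [hw, hDt2] at h9
  norm_num at h9

lemma core3 {q : ℕ} (hq : q % 8 = 7) {w : ℚ_[2]} (hw : w ^ 2 = q) : False := by
  obtain ⟨j, hj⟩ : ∃ j : ℕ, q = 8 * j + 7 := ⟨q / 8, by omega⟩
  have hj' : (q : ℚ_[2]) = 8 * j + 7 := by rw [hj]; push_cast; ring
  have h1 : ‖(3 : ℚ_[2]) + 4 * j‖ = 1 := by
    have e : (3 : ℚ_[2]) + 4 * j = 2 * (1 + 2 * j) + 1 := by ring
    have h2 : ‖(2 : ℚ_[2]) * (1 + 2 * j)‖ ≤ 1 / 2 := by
      rw [norm_mul, norm_two]
      have h3 : ‖(1 : ℚ_[2]) + 2 * j‖ ≤ 1 := by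
        refine norm_add_le_one norm_one.le (norm_mul_le_one ?_ (norm_nat_le j))
        rw [norm_two]
        norm_num
      linarith
    rw [e, Padic.add_eq_max_of_ne]
    · rw [norm_one]
      exact max_eq_right (by linarith)
    · rw [norm_one]
      intro h
      rw [h] at h2
      norm_num at h2
  have h2 : ‖(q : ℚ_[2]) - 1‖ = 1 / 2 := by
    have e : (q : ℚ_[2]) - 1 = 2 * (3 + 4 * j) := by rw [hj']; ring
    rw [e, norm_mul, norm_two, h1]
    norm_num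
  have h3 : ‖(q : ℚ_[2])‖ = 1 := by
    have e : (q : ℚ_[2]) = (q - 1) + 1 := by ring
    rw [e, Padic.add_eq_max_of_ne]
    · rw [h2, norm_one]
      exact max_eq_right (by norm_num)
    · rw [h2, norm_one]
      norm_num
  have hw1 : ‖w‖ = 1 := by
    rw [← hw, norm_pow] at h3
    exact (pow_eq_one_iff_of_nonneg (norm_nonneg w) two_ne_zero).mp h3
  have h9 := sq_sub_one_le hw1
  rw [hw, h2] at h9
  norm_num at h9

lemma no_sqrt {q D : ℕ} (hq : q % 8 = 7) (hD : D % 4 = 1) (hc : (16 : ℤ) ∣ 2 * D + 5 - q)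
    {τ : PadicAlgCl 2} (hτ : τ ^ 2 = -(q : PadicAlgCl 2))
    (hn : ‖((1 / 2 : ℚ) : PadicAlgCl 2) + ((-(1 / 2) : ℚ) : PadicAlgCl 2) * τ‖ < 1) {a b : ℚ_[2]}
    (h : (algebraMap ℚ_[2] (PadicAlgCl 2) a + algebraMap ℚ_[2] (PadicAlgCl 2) b * τ) ^ 2
      = D * τ) : False := by
  have hinj := (algebraMap ℚ_[2] (PadicAlgCl 2)).injective
  by_cases ht : ∃ t : ℚ_[2], t ^ 2 = -(q : ℚ_[2])
  · obtain ⟨t, ht, htτ⟩ : ∃ t : ℚ_[2], t ^ 2 = -(q : ℚ_[2]) ∧
        τ = algebraMap ℚ_[2] (PadicAlgCl 2) t := by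
      obtain ⟨t, ht⟩ := ht
      have h1 : τ ^ 2 = (algebraMap ℚ_[2] (PadicAlgCl 2) t) ^ 2 := by
        rw [hτ, ← map_pow, ht, map_neg, map_natCast]
      rcases sq_eq_sq_iff_eq_or_eq_neg.mp h1 with h2 | h2
      · exact ⟨t, ht, h2⟩
      · exact ⟨-t, by rw [neg_sq, ht], by rw [h2, map_neg]⟩
    apply core2 (w := a + b * t) hD hc ht
    · have e : ((1 / 2 : ℚ) : PadicAlgCl 2) + ((-(1 / 2) : ℚ) : PadicAlgCl 2) * τ
          = algebraMap ℚ_[2] (PadicAlgCl 2) (1 / 2 - 1 / 2 * t) := by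
        rw [htτ, map_sub, map_mul, map_div₀, map_one, map_ofNat]
        push_cast
        ring
      rw [e] at hn
      have e2 : ‖algebraMap ℚ_[2] (PadicAlgCl 2) (1 / 2 - 1 / 2 * t)‖ = ‖1 / 2 - 1 / 2 * t‖ :=
        PadicAlgCl.norm_extends 2 _
      rwa [e2] at hn
    · apply hinj
      rw [map_pow, map_add, map_mul, map_mul, map_natCast, ← htτ]
      exact h
  · have h1 : algebraMap ℚ_[2] (PadicAlgCl 2) (a ^ 2 - q * b ^ 2) +
        algebraMap ℚ_[2] (PadicAlgCl 2) (2 * a * b - D) * τ = 0 := by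
      simp only [map_sub, map_mul, map_pow, map_natCast, map_ofNat]
      linear_combination h - (algebraMap ℚ_[2] (PadicAlgCl 2) b) ^ 2 * hτ
    by_cases h2 : 2 * a * b - D = 0
    · rw [h2, map_zero, zero_mul, add_zero, map_eq_zero] at h1
      have hb : b ≠ 0 := by
        rintro rfl
        rw [mul_zero, zero_sub, neg_eq_zero] at h2
        have h3 : D = 0 := by exact_mod_cast h2
        omega
      apply core3 hq (w := a / b)
      rw [div_pow, div_eq_iff (pow_ne_zero 2 hb)]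
      linear_combination h1
    · apply ht
      have h3 : algebraMap ℚ_[2] (PadicAlgCl 2) (2 * a * b - D) ≠ 0 := by
        rw [Ne, map_eq_zero]
        exact h2
      refine ⟨-(a ^ 2 - q * b ^ 2) / (2 * a * b - D), ?_⟩
      have h4 : algebraMap ℚ_[2] (PadicAlgCl 2) (-(a ^ 2 - q * b ^ 2) / (2 * a * b - D)) = τ := by
        rw [map_div₀, map_neg, div_eq_iff h3]
        linear_combination -h1
      apply hinj
      rw [map_pow, h4, hτ, map_neg, map_natCast]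

end Pool.Agent.Q95.BKC
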