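import Pool.Agent.Q274.BKC.Stm2
import Pool.Agent.Q95.BKC.RedB

/-!
Project BKC (helper274), job RED.
-/

set_option autoImplicit false
set_option linter.unusedSectionVars false

namespace Pool.Agent.Q95.BKC

open NumberField IsDedekindDomain

theorem t_RED : Pool.Agent.Q274.BKC.S_RED := by
  intro hRAM hEMB hODD K _ _ q D s χ hq hq8 hCl hs hfin hχc hUnr hRes c hSel hle
  have hval : ∀ σ, ‖Pool.Agent.Q274.BKC.val χ σ‖ = 1 := fun σ => by
    have h1 : IsUnit ((χ σ : ℤ_[2])) := (χ σ).isUnit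
    have h2 := PadicInt.isUnit_iff.mp h1
    exact h2
  have hmul : ∀ σ τ, Pool.Agent.Q274.BKC.val χ (σ * τ)
      = Pool.Agent.Q274.BKC.val χ σ * Pool.Agent.Q274.BKC.val χ τ := fun σ τ => by
    unfold Pool.Agent.Q274.BKC.val
    rw [map_mul, Units.val_mul, PadicInt.coe_mul]
  obtain ⟨x, hx0, hx⟩ := kummer (Pool.Agent.Q274.BKC.val χ) hval c hSel.cont hSel.coc hle
  have hq0 : (q : K) ≠ 0 := by exact_mod_cast hq.ne_zero
  have hs0 : s ≠ 0 := by
    rintro rfl
    apply hq0
    rw [zero_pow two_ne_zero] at hs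
    linear_combination hs
  have hD0 : D ≠ 0 := by
    intro h
    have := hCl.sqf
    rw [h] at this
    exact not_squarefree_zero this
  have hDs : ((D : K) * s) ≠ 0 := mul_ne_zero (by exact_mod_cast hD0) hs0
  have hDodd : D % 4 = 1 := by
    have key : ∀ n : ℕ, n ≠ 0 → (∀ p : ℕ, p.Prime → p ∣ n → p % 4 = 1) → n % 4 = 1 := by
      intro n
      induction n using Nat.recOnMul with
      | zero => exact fun h => absurd rfl h
      | one => exact fun _ _ => rfl
      | prime p hp => exact fun _ h => h p hp dvd_rfl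
      | mul a b ha hb =>
        intro h0 h
        have h1 := ha (left_ne_zero_of_mul h0) (fun p hp hpa => h p hp (hpa.mul_right b))
        have h2 := hb (right_ne_zero_of_mul h0) (fun p hp hpb => h p hp (hpb.mul_left a))
        rw [Nat.mul_mod, h1, h2]
    exact key D hD0 fun p hp hpD => (hCl.one p hp hpD).1
  refine ⟨x, ⟨hx0, ?_, ?_, ?_⟩, hx⟩
  · -- even
    intro v hv
    by_contra hcon
    have hcon' : ∀ a : K, a ≠ 0 → v.valuation K (x * a ^ 2) ≠ 1 :=
      fun a ha h => hcon ⟨a, ha, h⟩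
    have hvm : v.asIdeal.IsMaximal := v.isMaximal
    obtain ⟨Q, hQm, hQv⟩ := Ideal.exists_ideal_over_maximal_of_isIntegral
      (S := (𝓞 (AlgebraicClosure K))) v.asIdeal (by
        rw [(RingHom.injective_iff_ker_eq_bot _).1
          (FaithfulSMul.algebraMap_injective (𝓞 K) (𝓞 (AlgebraicClosure K)))]
        exact bot_le)
    obtain ⟨σ, hσI, hσ⟩ := hRAM K x v Q hx0 hcon' hQm hQv
    have hQ2 : ((2 * q * D : ℕ) : OB K) ∉ Q := by
      intro h
      apply hv
      rw [← hQv, Ideal.mem_comap, map_natCast]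
      exact h
    have h2Q : (2 : OB K) ∉ Q := by
      intro h
      apply hQ2
      have e : ((2 * q * D : ℕ) : OB K) = 2 * ((q * D : ℕ) : OB K) := by push_cast; ring
      rw [e]
      exact Q.mul_mem_right _ h
    have h1 : χ σ = 1 := hUnr Q hQm hQ2 σ hσI
    obtain ⟨y₀, hy₀⟩ := hSel.ine Q hQm h2Q
    have h3 : c σ = 0 := by
      rw [hy₀ σ hσI]
      unfold Pool.Agent.Q274.BKC.val
      rw [h1]
      simp
    have h4 := (hx σ).mp (by rw [h3, norm_zero]; exact one_pos)
    obtain ⟨y, hy⟩ := IsAlgClosed.exists_pow_nat_eq (algebraMap K (AlgebraicClosure K) x) two_pos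
    have h5 := h4 y hy
    rw [hσ y hy] at h5
    have h6 : y = 0 := self_eq_neg.mp h5.symm
    rw [h6, zero_pow two_ne_zero, eq_comm, map_eq_zero] at hy
    exact hx0 hy
  · -- loc
    intro l Q hl hlqD hQm hlQ
    have hlodd : l % 2 = 1 := by
      rcases (Nat.Prime.dvd_mul hl).mp hlqD with h | h
      · rw [(Nat.prime_dvd_prime_iff_eq hl hq).mp h]
        omega
      · have := (hCl.one l hl h).1
        omega
    have h2Q : (2 : OB K) ∉ Q := by
      intro h
      apply hQm.ne_top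
      rw [Ideal.eq_top_iff_one]
      have e : (1 : OB K) = (l : OB K) - 2 * ((l / 2 : ℕ) : OB K) := by
        have h1 : l = 2 * (l / 2) + 1 := by omega
        have h2 : (l : OB K) = 2 * ((l / 2 : ℕ) : OB K) + 1 := by exact_mod_cast h1
        rw [h2]
        ring
      rw [e]
      exact Q.sub_mem hlQ (Q.mul_mem_right _ h)
    have hQp := hQm.isPrime
    have hlv : (l : 𝓞 K) ∈ Q.comap (algebraMap (𝓞 K) (OB K)) := by
      rw [Ideal.mem_comap, map_natCast]
      exact hlQ
    let v : HeightOneSpectrum (𝓞 K) := ⟨Q.comap (algebraMap (𝓞 K) (OB K)), inferInstance, by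
      intro h
      rw [h, Ideal.mem_bot] at hlv
      have : l = 0 := by exact_mod_cast hlv
      exact hl.ne_zero this⟩
    obtain ⟨τ, hτI, hτ⟩ := hRAM K (D * s) v Q hDs
      (hODD K q D s hq hq8 hCl hs hfin l v hl hlqD hlv) hQm rfl
    obtain ⟨y, hy⟩ := IsAlgClosed.exists_pow_nat_eq
      (algebraMap K (AlgebraicClosure K) (D * s)) two_pos
    have hτ' : ¬ ‖Pool.Agent.Q274.BKC.val χ τ - 1‖ ≤ 1 / 4 := by
      rw [← hRes y hy τ, hτ y hy]
      intro h
      have h6 : y = 0 := self_eq_neg.mp h.symm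
      rw [h6, zero_pow two_ne_zero, eq_comm, map_eq_zero] at hy
      exact hDs hy
    have hτ1 : Pool.Agent.Q274.BKC.val χ τ ≠ 1 := by
      intro h
      apply hτ'
      rw [h, sub_self, norm_zero]
      norm_num
    obtain ⟨y₀, hy₀⟩ := hSel.ine Q hQm h2Q
    have hdec := ine_to_dec hmul hval hSel.coc (Q := Q) (y₀ := y₀) hy₀ (τ := τ) hτI hτ1
    have hτD : τ ∈ Pool.Agent.Q274.BKC.Dec Q := by
      intro z
      have h1 : τ • z - z ∈ Q := hτI z
      constructor
      · intro h
        have := Q.sub_mem h h1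
        simpa using this
      · intro h
        have := Q.add_mem h1 h
        simpa using this
    exact dich hval hle hx hRes (H := Pool.Agent.Q274.BKC.Dec Q)
      (fun σ hσ => hdec σ hσ) hτD hτ'
  · -- two
    intro Q hQm hA
    obtain ⟨y₀, hy₀⟩ := hSel.dec Q hQm hA
    by_cases hex : ∃ τ ∈ Pool.Agent.Q274.BKC.Dec Q, ¬ ‖Pool.Agent.Q274.BKC.val χ τ - 1‖ ≤ 1 / 4
    · obtain ⟨τ, hτD, hτ'⟩ := hex
      exact dich hval hle hx hRes (H := Pool.Agent.Q274.BKC.Dec Q) hy₀ hτD hτ'
    · exfalso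
      push Not at hex
      obtain ⟨h2Q, z, hzQ, hz⟩ := hA
      obtain ⟨τ, hτ2, hE⟩ := (hEMB K q s hq hq8 hs hfin 2).2 Q hQm (by
        rw [Nat.cast_ofNat]
        exact h2Q)
      have hz' : (z : AlgebraicClosure K) = algebraMap K (AlgebraicClosure K)
          (((1 / 2 : ℚ) : K) + ((-(1 / 2) : ℚ) : K) * s) := by
        have h2 : (2 : AlgebraicClosure K) ≠ 0 := two_ne_zero
        apply mul_left_cancel₀ h2
        rw [hz, map_add, map_mul, map_ratCast, map_ratCast]
        push_cast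
        ring
      have hn := (hE.iff _ _ z hz').mp hzQ
      obtain ⟨a, b, hab⟩ := hE.sqr 0 D (by
        intro y hy σ hσ
        have e : (((0 : ℚ) : K) + ((D : ℚ) : K) * s) = D * s := by
          rw [Rat.cast_zero, Rat.cast_natCast, zero_add]
        rw [e] at hy
        exact (hRes y hy σ).mpr (hex σ hσ))
      have hab' : (algebraMap ℚ_[2] (PadicAlgCl 2) a + algebraMap ℚ_[2] (PadicAlgCl 2) b * τ) ^ 2
          = D * τ := by
        rw [hab, Rat.cast_zero, Rat.cast_natCast, zero_add]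
      exact no_sqrt hq8 hDodd hCl.cong hτ2 hn hab'

end Pool.Agent.Q95.BKC
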